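import Pool.Agent.Q213.PM.Stm

set_option autoImplicit false

/-!
Project PM (helper213), job NAT (helper154).
-/

universe u

open CategoryTheory Limits Opposite Simplicial HomotopicalAlgebra MonoidalCategory
open SSet.modelCategoryQuillen
open Pool.Agent.Q213.PM

namespace Pool.Agent.Q154.PM

variable {X Y : Type u} [SmallCategory X] [SmallCategory Y] {F G : X ⥤ Y}

/-- The chain given by a chain in `X` and a simplex of `Δ[1]`. -/
def chain (α : F ⟶ G) {n : SimplexCategoryᵒᵖ} (c : ComposableArrows X n.unop.len)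
    (s : (Δ[1] : SSet.{u}).obj n) : ComposableArrows Y n.unop.len :=
  Functor.prod' (SSet.stdSimplex.asOrderHom s).monotone.functor c ⋙
    Functor.uncurry.obj (ComposableArrows.mk₁ α)

/-- The homotopy. -/
def homot (α : F ⟶ G) : (nerve X ⊗ Δ[1] : SSet.{u}) ⟶ nerve Y where
  app n := ↾(fun x => chain α x.1 x.2)
  naturality m n f := by
    ext x
    rfl

theorem chain_const (P : Fin 2 ⥤ (X ⥤ Y)) (i : Fin 2) {n : ℕ} (c : Fin (n + 1) ⥤ X) :
    Functor.prod' ((Functor.const (Fin (n + 1))).obj i) c ⋙ Functor.uncurry.obj P =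
      c ⋙ P.obj i := by
  refine CategoryTheory.Functor.ext (fun j => rfl) ?_
  intro a b f
  simp

theorem nat : S_NAT.{u} := by
  intro X Y _ _ F G α
  refine ⟨homot α, ?_, ?_⟩
  · ext n x
    exact chain_const (ComposableArrows.mk₁ α) 0 x
  · ext n x
    exact chain_const (ComposableArrows.mk₁ α) 1 x

end Pool.Agent.Q154.PM
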