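import Pool.Agent.Q213.PM.Stm

set_option autoImplicit false

/-!
Project PM (helper213), job TFE (helper154).
-/

universe u

open CategoryTheory Limits Opposite Simplicial HomotopicalAlgebra MonoidalCategory
open SSet.modelCategoryQuillen
open Pool.Agent.Q213.PM

namespace Pool.Agent.Q154.PM

/-- The disjoint union of two copies of `X`. -/
def Two (X : SSet.{u}) : SSet.{u} where
  obj n := X.obj n ⊕ X.obj n
  map f := ↾(Sum.map (X.map f) (X.map f))
  map_id n := by
    ext x
    rcases x with x | x <;> simp
  map_comp f g := by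
    ext x
    rcases x with x | x <;> simp

/-- The first copy. -/
def Two.inl (X : SSet.{u}) : X ⟶ Two X where
  app n := ↾(Sum.inl)
  naturality m n f := by
    ext x
    rfl

/-- The second copy. -/
def Two.inr (X : SSet.{u}) : X ⟶ Two X where
  app n := ↾(Sum.inr)
  naturality m n f := by
    ext x
    rfl

/-- The map given by two maps. -/
def Two.desc {X Y : SSet.{u}} (f g : X ⟶ Y) : Two X ⟶ Y where
  app n := ↾(Sum.elim (f.app n) (g.app n))
  naturality m n h := by
    ext x
    rcases x with x | x
    · exact NatTrans.naturality_apply f h x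
    · exact NatTrans.naturality_apply g h x

theorem Two.inl_desc {X Y : SSet.{u}} (f g : X ⟶ Y) : Two.inl X ≫ Two.desc f g = f := rfl

theorem Two.inr_desc {X Y : SSet.{u}} (f g : X ⟶ Y) : Two.inr X ≫ Two.desc f g = g := rfl

theorem Two.hom_ext {X Y : SSet.{u}} {a b : Two X ⟶ Y} (h0 : Two.inl X ≫ a = Two.inl X ≫ b)
    (h1 : Two.inr X ≫ a = Two.inr X ≫ b) : a = b := by
  ext n x
  rcases x with x | x
  · exact congrArg (fun f : X ⟶ Y => f.app n x) h0
  · exact congrArg (fun f : X ⟶ Y => f.app n x) h1

instance Two.mono (X : SSet.{u}) : Mono (Two.desc (SSet.ι₀ (X := X)) SSet.ι₁) := by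
  rw [NatTrans.mono_iff_mono_app]
  intro n
  rw [mono_iff_injective]
  induction n using Opposite.rec with
  | _ n =>
  induction n using SimplexCategory.rec with
  | _ n =>
  intro x y h
  rcases x with x | x <;> rcases y with y | y
  · have := congrArg Prod.fst h
    exact congrArg Sum.inl this
  · exfalso
    have h1 := congrArg Prod.snd h
    have h2 := SSet.ι₀_app_snd_apply x 0
    have h3 := SSet.ι₁_app_snd_apply y 0
    have h4 := congrArg (fun z : Δ[1] _⦋n⦌ => z 0) h1
    exact absurd (h2.symm.trans (h4.trans h3)) (by decide)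
  · exfalso
    have h1 := congrArg Prod.snd h
    have h2 := SSet.ι₁_app_snd_apply x 0
    have h3 := SSet.ι₀_app_snd_apply y 0
    have h4 := congrArg (fun z : Δ[1] _⦋n⦌ => z 0) h1
    exact absurd (h2.symm.trans (h4.trans h3)) (by decide)
  · have := congrArg Prod.fst h
    exact congrArg Sum.inr this

theorem tfe : S_TFE.{u} := by
  intro X K L q b0 b1 g hq h0 h1
  have := hq (Two.desc (SSet.ι₀ (X := X)) SSet.ι₁) (Two.mono X)
  have sq : CommSq (Two.desc b0 b1) (Two.desc (SSet.ι₀ (X := X)) SSet.ι₁) q g := by
    constructor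
    apply Two.hom_ext
    · rw [← Category.assoc, ← Category.assoc, Two.inl_desc, Two.inl_desc, h0]
    · rw [← Category.assoc, ← Category.assoc, Two.inr_desc, Two.inr_desc, h1]
  refine ⟨sq.lift, ?_, ?_, sq.fac_right⟩
  · have := congrArg (fun f => Two.inl X ≫ f) sq.fac_left
    simpa only [← Category.assoc, Two.inl_desc] using this
  · have := congrArg (fun f => Two.inr X ≫ f) sq.fac_left
    simpa only [← Category.assoc, Two.inr_desc] using this

end Pool.Agent.Q154.PM
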